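import Mathlib

set_option autoImplicit false

open scoped TensorProduct

namespace Pool.Agent.H656

/-- generators: `(t, m, i, j)`. -/
abbrev Gen := Bool × ℕ × Bool × Bool

/-- the defining relations of the Hopf algebra. -/
inductive Rel : FreeAlgebra ℚ Gen → FreeAlgebra ℚ Gen → Prop
  | r1 (t : Bool) (m : ℕ) (i k : Bool) :
      Rel (∑ j : Bool, FreeAlgebra.ι ℚ ((t, m, i, j) : Gen) *
            FreeAlgebra.ι ℚ ((t, m + 1, !k, !j) : Gen)) (if i = k then 1 else 0)
  | r2 (t : Bool) (m : ℕ) (i k : Bool) :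
      Rel (∑ j : Bool, FreeAlgebra.ι ℚ ((t, m + 1, !j, !i) : Gen) *
            FreeAlgebra.ι ℚ ((t, m, j, k) : Gen)) (if i = k then 1 else 0)

/-- the free Hopf algebra on two copies of the `2 × 2` matrix coalgebra. -/
abbrev HH : Type := RingQuot Rel

noncomputable def z (g : Gen) : HH := RingQuot.mkAlgHom ℚ Rel (FreeAlgebra.ι ℚ g)

theorem z_r1 (t : Bool) (m : ℕ) (i k : Bool) :
    ∑ j : Bool, z (t, m, i, j) * z (t, m + 1, !k, !j) = if i = k then 1 else 0 := by
  have := RingQuot.mkAlgHom_rel ℚ (Rel.r1 t m i k)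
  simpa [z, map_sum, apply_ite (RingQuot.mkAlgHom ℚ Rel)] using this

theorem z_r2 (t : Bool) (m : ℕ) (i k : Bool) :
    ∑ j : Bool, z (t, m + 1, !j, !i) * z (t, m, j, k) = if i = k then 1 else 0 := by
  have := RingQuot.mkAlgHom_rel ℚ (Rel.r2 t m i k)
  simpa [z, map_sum, apply_ite (RingQuot.mkAlgHom ℚ Rel)] using this

/-- universal property. -/
noncomputable def liftH {B : Type*} [Semiring B] [Algebra ℚ B] (f : Gen → B)
    (h1 : ∀ t m i k, ∑ j : Bool, f (t, m, i, j) * f (t, m + 1, !k, !j) = if i = k then 1 else 0)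
    (h2 : ∀ t m i k, ∑ j : Bool, f (t, m + 1, !j, !i) * f (t, m, j, k) = if i = k then 1 else 0) :
    HH →ₐ[ℚ] B :=
  RingQuot.liftAlgHom ℚ ⟨FreeAlgebra.lift ℚ f, by
    intro x y hxy
    cases hxy with
    | r1 t m i k =>
      have := h1 t m i k
      simpa [map_sum, apply_ite (FreeAlgebra.lift ℚ f)] using this
    | r2 t m i k =>
      have := h2 t m i k
      simpa [map_sum, apply_ite (FreeAlgebra.lift ℚ f)] using this⟩

theorem liftH_z {B : Type*} [Semiring B] [Algebra ℚ B] (f : Gen → B) (h1) (h2) (g : Gen) :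
    liftH f h1 h2 (z g) = f g := by
  simp [liftH, z]

theorem HH_induction {P : HH → Prop} (ha : ∀ r : ℚ, P (algebraMap ℚ HH r)) (hz : ∀ g, P (z g))
    (hm : ∀ a b, P a → P b → P (a * b)) (hp : ∀ a b, P a → P b → P (a + b)) (h : HH) : P h := by
  obtain ⟨x, rfl⟩ := RingQuot.mkAlgHom_surjective ℚ Rel h
  induction x using FreeAlgebra.induction with
  | grade0 r => rw [AlgHom.commutes]; exact ha r
  | grade1 g => exact hz g
  | mul a b ha hb => rw [map_mul]; exact hm _ _ ha hb
  | add a b ha hb => rw [map_add]; exact hp _ _ ha hb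

theorem HH_ext {B : Type*} [Semiring B] [Algebra ℚ B] {f g : HH →ₐ[ℚ] B}
    (h : ∀ x, f (z x) = g (z x)) : f = g := by
  refine AlgHom.ext fun x => ?_
  induction x using HH_induction with
  | ha r => simp
  | hz x => exact h x
  | hm a b ha hb => rw [map_mul, map_mul, ha, hb]
  | hp a b ha hb => rw [map_add, map_add, ha, hb]

theorem tens1 (x x' : Bool → HH) (y y' : Bool → Bool → HH) :
    ∑ j : Bool, (∑ a : Bool, x a ⊗ₜ[ℚ] y a j) * (∑ b : Bool, x' b ⊗ₜ[ℚ] y' b j) =
      ∑ a : Bool, ∑ b : Bool, (x a * x' b) ⊗ₜ[ℚ] (∑ j : Bool, y a j * y' b j) := by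
  simp only [Fintype.sum_bool, add_mul, mul_add, Algebra.TensorProduct.tmul_mul_tmul,
    TensorProduct.tmul_add]
  abel

theorem tens2 (x x' : Bool → Bool → HH) (y y' : Bool → HH) :
    ∑ j : Bool, (∑ a : Bool, x a j ⊗ₜ[ℚ] y a) * (∑ b : Bool, x' b j ⊗ₜ[ℚ] y' b) =
      ∑ a : Bool, ∑ b : Bool, (∑ j : Bool, x a j * x' b j) ⊗ₜ[ℚ] (y a * y' b) := by
  simp only [Fintype.sum_bool, add_mul, mul_add, Algebra.TensorProduct.tmul_mul_tmul,
    TensorProduct.add_tmul]
  abel

theorem ite_tmul_one (i k : Bool) :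
    ((if i = k then 1 else 0 : HH) ⊗ₜ[ℚ] (1 : HH)) = if i = k then 1 else 0 := by
  split_ifs
  · rfl
  · simp

theorem one_tmul_ite (i k : Bool) :
    ((1 : HH) ⊗ₜ[ℚ] (if i = k then 1 else 0 : HH)) = if i = k then 1 else 0 := by
  split_ifs
  · rfl
  · simp

theorem comul_aux1 (t : Bool) (m : ℕ) (i k : Bool) :
    ∑ j : Bool, (∑ a : Bool, z (t, m, i, a) ⊗ₜ[ℚ] z (t, m, a, j)) *
      (∑ b : Bool, z (t, m + 1, !k, b) ⊗ₜ[ℚ] z (t, m + 1, b, !j)) =
      if i = k then 1 else 0 := by
  rw [tens1 (fun a => z (t, m, i, a)) (fun b => z (t, m + 1, !k, b))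
    (fun a j => z (t, m, a, j)) (fun b j => z (t, m + 1, b, !j))]
  have e1 : ∀ a b : Bool, ∑ j : Bool, z (t, m, a, j) * z (t, m + 1, b, !j)
      = if a = !b then 1 else 0 := by
    intro a b
    have := z_r1 t m a (!b)
    rw [Bool.not_not] at this
    exact this
  simp only [e1]
  rw [← ite_tmul_one, ← z_r1 t m i k]
  simp [TensorProduct.add_tmul]

theorem comul_aux2 (t : Bool) (m : ℕ) (i k : Bool) :
    ∑ j : Bool, (∑ a : Bool, z (t, m + 1, !j, a) ⊗ₜ[ℚ] z (t, m + 1, a, !i)) *
      (∑ b : Bool, z (t, m, j, b) ⊗ₜ[ℚ] z (t, m, b, k)) =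
      if i = k then 1 else 0 := by
  rw [tens2 (fun a j => z (t, m + 1, !j, a)) (fun b j => z (t, m, j, b))
    (fun a => z (t, m + 1, a, !i)) (fun b => z (t, m, b, k))]
  have e1 : ∀ a b : Bool, ∑ j : Bool, z (t, m + 1, !j, a) * z (t, m, j, b)
      = if (!a) = b then 1 else 0 := by
    intro a b
    have := z_r2 t m (!a) b
    rw [Bool.not_not] at this
    exact this
  simp only [e1]
  rw [← one_tmul_ite, ← z_r2 t m i k]
  simp [TensorProduct.tmul_add]
  abel

/-- comultiplication -/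
noncomputable def comulH : HH →ₐ[ℚ] HH ⊗[ℚ] HH :=
  liftH (fun g => ∑ a : Bool, z (g.1, g.2.1, g.2.2.1, a) ⊗ₜ[ℚ] z (g.1, g.2.1, a, g.2.2.2))
    (fun t m i k => comul_aux1 t m i k) (fun t m i k => comul_aux2 t m i k)

theorem comulH_z (t : Bool) (m : ℕ) (i j : Bool) :
    comulH (z (t, m, i, j)) = ∑ a : Bool, z (t, m, i, a) ⊗ₜ[ℚ] z (t, m, a, j) :=
  liftH_z _ _ _ _

/-- counit -/
noncomputable def counitH : HH →ₐ[ℚ] ℚ :=
  liftH (fun g => if g.2.2.1 = g.2.2.2 then 1 else 0)
    (fun t m i k => by cases i <;> cases k <;> simp)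
    (fun t m i k => by cases i <;> cases k <;> simp)

theorem counitH_z (t : Bool) (m : ℕ) (i j : Bool) :
    counitH (z (t, m, i, j)) = if i = j then 1 else 0 :=
  liftH_z _ _ _ _

/-- antipode as a map to the opposite algebra -/
noncomputable def antiH : HH →ₐ[ℚ] HHᵐᵒᵖ :=
  liftH (fun g => MulOpposite.op (z (g.1, g.2.1 + 1, !g.2.2.2, !g.2.2.1)))
    (fun t m i k => by
      have := z_r2 t (m + 1) (!k) (!i)
      apply MulOpposite.unop_injective
      rw [Fintype.sum_bool] at this ⊢
      simp only [MulOpposite.unop_add, MulOpposite.unop_mul, MulOpposite.unop_op, Bool.not_not,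
        Bool.not_true, Bool.not_false] at this ⊢
      rw [add_comm] at this
      rw [this]
      cases i <;> cases k <;> simp)
    (fun t m i k => by
      have := z_r1 t (m + 1) (!k) (!i)
      apply MulOpposite.unop_injective
      rw [Fintype.sum_bool] at this ⊢
      simp only [MulOpposite.unop_add, MulOpposite.unop_mul, MulOpposite.unop_op, Bool.not_not,
        Bool.not_true, Bool.not_false] at this ⊢
      rw [add_comm] at this
      rw [this]
      cases i <;> cases k <;> simp)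

theorem antiH_z (t : Bool) (m : ℕ) (i j : Bool) :
    antiH (z (t, m, i, j)) = MulOpposite.op (z (t, m + 1, !j, !i)) :=
  liftH_z _ _ _ _

noncomputable def antipodeH : HH →ₗ[ℚ] HH :=
  (MulOpposite.opLinearEquiv ℚ).symm.toLinearMap ∘ₗ antiH.toLinearMap

theorem antipodeH_z (t : Bool) (m : ℕ) (i j : Bool) :
    antipodeH (z (t, m, i, j)) = z (t, m + 1, !j, !i) := by
  simp [antipodeH, antiH_z]

theorem antipodeH_mul (a b : HH) : antipodeH (a * b) = antipodeH b * antipodeH a := by
  simp [antipodeH]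

theorem antipodeH_algebraMap (r : ℚ) : antipodeH (algebraMap ℚ HH r) = algebraMap ℚ HH r := by
  simp [antipodeH]

noncomputable instance bialgH : Bialgebra ℚ HH :=
  Bialgebra.ofAlgHom comulH counitH
    (by
      apply HH_ext
      rintro ⟨t, m, i, j⟩
      simp [comulH_z, TensorProduct.tmul_add, TensorProduct.add_tmul]
      abel)
    (by
      apply HH_ext
      rintro ⟨t, m, i, j⟩
      cases i <;> simp [comulH_z, counitH_z])
    (by
      apply HH_ext
      rintro ⟨t, m, i, j⟩
      cases j <;> simp [comulH_z, counitH_z])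

theorem comul_eq (h : HH) : Coalgebra.comul (R := ℚ) h = comulH h := rfl
theorem counit_eq (h : HH) : Coalgebra.counit (R := ℚ) h = counitH h := rfl

/-- left convolution evaluation -/
noncomputable def FL : HH ⊗[ℚ] HH →ₗ[ℚ] HH := LinearMap.mul' ℚ HH ∘ₗ antipodeH.rTensor HH

noncomputable def FR : HH ⊗[ℚ] HH →ₗ[ℚ] HH := LinearMap.mul' ℚ HH ∘ₗ antipodeH.lTensor HH

theorem FL_tmul (a b : HH) : FL (a ⊗ₜ b) = antipodeH a * b := by simp [FL]
theorem FR_tmul (a b : HH) : FR (a ⊗ₜ b) = a * antipodeH b := by simp [FR]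

theorem FL_mul_tmul (u : HH ⊗[ℚ] HH) (a b : HH) :
    FL (u * (a ⊗ₜ b)) = antipodeH a * FL u * b := by
  induction u with
  | zero => simp
  | tmul c d => rw [Algebra.TensorProduct.tmul_mul_tmul, FL_tmul, FL_tmul, antipodeH_mul]; noncomm_ring
  | add x y hx hy => rw [add_mul, map_add, hx, hy, map_add]; noncomm_ring

theorem FR_tmul_mul (u : HH ⊗[ℚ] HH) (a b : HH) :
    FR ((a ⊗ₜ b) * u) = a * FR u * antipodeH b := by
  induction u with
  | zero => simp
  | tmul c d => rw [Algebra.TensorProduct.tmul_mul_tmul, FR_tmul, FR_tmul, antipodeH_mul]; noncomm_ring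
  | add x y hx hy => rw [mul_add, map_add, hx, hy, map_add]; noncomm_ring

theorem FL_mul (u v : HH ⊗[ℚ] HH) (r : ℚ) (hu : FL u = algebraMap ℚ HH r) :
    FL (u * v) = r • FL v := by
  induction v with
  | zero => simp
  | tmul a b =>
    rw [FL_mul_tmul, hu, FL_tmul, Algebra.algebraMap_eq_smul_one]
    simp
  | add x y hx hy => rw [mul_add, map_add, hx, hy, map_add, smul_add]

theorem FR_mul (u v : HH ⊗[ℚ] HH) (r : ℚ) (hv : FR v = algebraMap ℚ HH r) :
    FR (u * v) = r • FR u := by
  induction u with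
  | zero => simp
  | tmul a b =>
    rw [FR_tmul_mul, hv, FR_tmul, Algebra.algebraMap_eq_smul_one]
    simp
  | add x y hx hy => rw [add_mul, map_add, hx, hy, map_add, smul_add]

theorem FL_comul (h : HH) : FL (comulH h) = algebraMap ℚ HH (counitH h) := by
  induction h using HH_induction with
  | ha r =>
    rw [AlgHom.commutes, AlgHom.commutes, Algebra.TensorProduct.algebraMap_apply, FL_tmul,
      antipodeH_algebraMap]
    simp
  | hz g =>
    obtain ⟨t, m, i, j⟩ := g
    rw [comulH_z, map_sum, counitH_z]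
    simp only [FL_tmul, antipodeH_z]
    rw [z_r2 t m i j]
    split_ifs <;> simp
  | hm a b ha hb =>
    rw [map_mul, FL_mul _ _ _ ha, hb, map_mul, map_mul]
    rw [Algebra.smul_def]
  | hp a b ha hb => simp only [map_add, ha, hb]

theorem FR_comul (h : HH) : FR (comulH h) = algebraMap ℚ HH (counitH h) := by
  induction h using HH_induction with
  | ha r =>
    rw [AlgHom.commutes, AlgHom.commutes, Algebra.TensorProduct.algebraMap_apply, FR_tmul]
    have : antipodeH (1 : HH) = 1 := by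
      have := antipodeH_algebraMap 1
      simpa using this
    simp [this]
  | hz g =>
    obtain ⟨t, m, i, j⟩ := g
    rw [comulH_z, map_sum, counitH_z]
    simp only [FR_tmul, antipodeH_z]
    rw [z_r1 t m i j]
    split_ifs <;> simp
  | hm a b ha hb =>
    rw [map_mul, FR_mul _ _ _ hb, ha, map_mul, map_mul]
    rw [Algebra.smul_def, ← map_mul, mul_comm]
    simp
  | hp a b ha hb => simp only [map_add, ha, hb]

noncomputable instance hopfH : HopfAlgebra ℚ HH where
  antipode := antipodeH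
  mul_antipode_rTensor_comul := by
    apply LinearMap.ext
    intro h
    exact FL_comul h
  mul_antipode_lTensor_comul := by
    apply LinearMap.ext
    intro h
    exact FR_comul h

end Pool.Agent.H656
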