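import Pool.Agent.H656.FreeHopf

set_option autoImplicit false

open scoped TensorProduct

namespace Pool.Agent.H656

/-- weights of the operators at a given level. -/
structure Wt where
  A : ℕ → ℚ
  B : ℕ → ℚ
  C : ℕ → ℚ
  D : ℕ → ℚ

def Wt.dt (w : Wt) (j : ℕ) : ℚ := w.A j * w.D j - w.B (j + 1) * w.C j

def Wt.nextC (w : Wt) : ℕ → ℚ
  | 0 => 1 / w.B 0
  | j + 1 => - w.C j / w.dt j

def Wt.next (w : Wt) : Wt where
  A j := w.A j / w.dt j
  B j := - w.B (j + 1) / w.dt j
  C := w.nextC
  D j := w.D j / w.dt j

def W : ℕ → Wt
  | 0 => ⟨fun _ => 1, fun _ => 1, fun _ => 0, fun _ => 1⟩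
  | m + 1 => (W m).next

/-- sign pattern preserved by the recursion. -/
structure Good (s : ℚ) (w : Wt) : Prop where
  A : ∀ j, 0 < w.A j
  D : ∀ j, 0 < w.D j
  B : ∀ j, 0 < s * w.B j
  C : ∀ j, s * w.C j ≤ 0

theorem Good.dt_pos {s : ℚ} {w : Wt} (hs : s * s = 1) (h : Good s w) (j : ℕ) : 0 < w.dt j := by
  unfold Wt.dt
  have h1 := mul_pos (h.A j) (h.D j)
  have h2 : (s * w.B (j + 1)) * (s * w.C j) ≤ 0 :=
    mul_nonpos_of_nonneg_of_nonpos (h.B (j + 1)).le (h.C j)
  have h3 : (s * w.B (j + 1)) * (s * w.C j) = w.B (j + 1) * w.C j := by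
    linear_combination (w.B (j + 1) * w.C j) * hs
  linarith

theorem Good.next {s : ℚ} {w : Wt} (hs : s * s = 1) (h : Good s w) : Good (-s) w.next where
  A j := div_pos (h.A j) (h.dt_pos hs j)
  D j := div_pos (h.D j) (h.dt_pos hs j)
  B j := by
    have h1 := div_pos (h.B (j + 1)) (h.dt_pos hs j)
    have h2 : -s * w.next.B j = s * w.B (j + 1) / w.dt j := by
      simp only [Wt.next]; ring
    rw [h2]; exact h1
  C j := by
    rcases j with _ | j
    · have h1 := h.B 0
      have h2 : s * (1 / w.B 0) = (s * s) / (s * w.B 0) := by
        have : w.B 0 ≠ 0 := by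
          intro h0; rw [h0, mul_zero] at h1; exact lt_irrefl _ h1
        have hs0 : s ≠ 0 := by
          intro h0; rw [h0, zero_mul] at h1; exact lt_irrefl _ h1
        field_simp
      show -s * (1 / w.B 0) ≤ 0
      have h3 : 0 < s * (1 / w.B 0) := by
        rw [h2, hs]; positivity
      linarith
    · show -s * (- w.C j / w.dt j) ≤ 0
      have h2 : -s * (- w.C j / w.dt j) = s * w.C j / w.dt j := by ring
      rw [h2]
      exact div_nonpos_of_nonpos_of_nonneg (h.C j) (h.dt_pos hs j).le

theorem W_good (m : ℕ) : ∃ s : ℚ, s * s = 1 ∧ Good s (W m) := by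
  induction m with
  | zero => exact ⟨1, by norm_num, ⟨fun j => by simp [W], fun j => by simp [W],
      fun j => by simp [W], fun j => by simp [W]⟩⟩
  | succ m ih =>
    obtain ⟨s, hs, h⟩ := ih
    exact ⟨-s, by linarith [hs], h.next hs⟩

/-- a weight system is nondegenerate. -/
structure ND (w : Wt) : Prop where
  dt : ∀ j, w.dt j ≠ 0
  B0 : w.B 0 ≠ 0

theorem W_nd (m : ℕ) : ND (W m) := by
  obtain ⟨s, hs, h⟩ := W_good m
  refine ⟨fun j => (h.dt_pos hs j).ne', ?_⟩
  intro h0
  have := h.B 0
  rw [h0, mul_zero] at this
  exact lt_irrefl _ this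

/-- the index set of the free generators of `R`. -/
abbrev J := ℕ × ℕ

/-- the algebra acted upon: a free algebra on countably many generators. -/
abbrev RR : Type := FreeAlgebra ℚ J

noncomputable def v (x : J) : RR := FreeAlgebra.ι ℚ x

/-- the operators on generators. -/
noncomputable def base (w : Wt) : Bool → Bool → J → RR
  | false, false, x => w.A x.1 • v (x.1 + 1, x.2)
  | false, true, x => w.B x.1 • v x
  | true, false, x => w.C x.1 • v x
  | true, true, (0, _) => 0
  | true, true, (n + 1, l) => w.D n • v (n, l)

noncomputable def Phi (w : Wt) : RR →ₐ[ℚ] Matrix Bool Bool RR :=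
  FreeAlgebra.lift ℚ (fun x => Matrix.of fun i j => base w i j x)

noncomputable def E (w : Wt) (i j : Bool) : Module.End ℚ RR :=
  (Matrix.entryLinearMap ℚ RR i j) ∘ₗ (Phi w).toLinearMap

theorem E_apply (w : Wt) (i j : Bool) (x : RR) : E w i j x = Phi w x i j := rfl

theorem E_v (w : Wt) (i j : Bool) (x : J) : E w i j (v x) = base w i j x := by
  simp [E_apply, Phi, v]

theorem E_mul (w : Wt) (i j : Bool) (x y : RR) :
    E w i j (x * y) = ∑ a : Bool, E w i a x * E w a j y := by
  simp [E_apply, Matrix.mul_apply]

theorem E_algebraMap (w : Wt) (i j : Bool) (r : ℚ) :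
    E w i j (algebraMap ℚ RR r) = if i = j then algebraMap ℚ RR r else 0 := by
  rw [E_apply, AlgHom.commutes, Matrix.algebraMap_matrix_apply]

theorem rel_gen1 (w : Wt) (hw : ND w) (i k : Bool) (x : J) :
    ∑ j : Bool, E w i j (E w.next (!k) (!j) (v x)) = if i = k then v x else 0 := by
  rw [Fintype.sum_bool]
  simp only [E_v]
  obtain ⟨n, l⟩ := x
  cases i <;> cases k
  · rcases n with _ | n
    · have := hw.B0
      simp [base, E_v, Wt.next, Wt.nextC, smul_smul, this]
    · have := hw.dt n
      simp only [base, E_v, Wt.next, Wt.nextC, Bool.not_false, Bool.not_true, map_smul, smul_smul,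
        ← add_smul, if_true]
      convert one_smul ℚ (v (n + 1, l)) using 2
      field_simp
      unfold Wt.dt
      ring
  · have := hw.dt n
    simp only [base, E_v, Wt.next, Bool.not_false, Bool.not_true, map_smul, smul_smul,
        ← add_smul, reduceCtorEq, if_false]
    convert zero_smul ℚ (v (n + 1, l)) using 2
    field_simp
    ring
  · rcases n with _ | n
    · simp [base, E_v, Wt.next, Wt.nextC]
    · have := hw.dt n
      simp only [base, E_v, Wt.next, Wt.nextC, Bool.not_false, Bool.not_true, map_smul, smul_smul,
        ← add_smul, reduceCtorEq, if_false]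
      convert zero_smul ℚ (v (n, l)) using 2
      field_simp
      ring
  · have := hw.dt n
    simp only [base, E_v, Wt.next, Bool.not_false, Bool.not_true, map_smul, smul_smul,
        ← add_smul, if_true]
    convert one_smul ℚ (v (n, l)) using 2
    field_simp
    unfold Wt.dt
    ring

theorem rel_gen2 (w : Wt) (hw : ND w) (i k : Bool) (x : J) :
    ∑ j : Bool, E w.next (!j) (!i) (E w j k (v x)) = if i = k then v x else 0 := by
  rw [Fintype.sum_bool]
  simp only [E_v]
  obtain ⟨n, l⟩ := x
  cases i <;> cases k
  · have := hw.dt n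
    simp only [base, E_v, Wt.next, Bool.not_false, Bool.not_true, map_smul, smul_smul,
        ← add_smul, if_true]
    convert one_smul ℚ (v (n, l)) using 2
    field_simp
    unfold Wt.dt
    ring
  · rcases n with _ | n
    · simp [base, E_v, Wt.next]
    · have := hw.dt n
      simp only [base, E_v, Wt.next, Bool.not_false, Bool.not_true, map_smul, smul_smul,
        ← add_smul, reduceCtorEq, if_false]
      convert zero_smul ℚ (v (n, l)) using 2
      field_simp
      ring
  · have := hw.dt n
    simp only [base, E_v, Wt.next, Wt.nextC, Bool.not_false, Bool.not_true, map_smul, smul_smul,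
        ← add_smul, reduceCtorEq, if_false]
    convert zero_smul ℚ (v (n + 1, l)) using 2
    field_simp
    ring
  · rcases n with _ | n
    · have := hw.B0
      simp [base, E_v, Wt.next, Wt.nextC, smul_smul, this]
    · have := hw.dt n
      simp only [base, E_v, Wt.next, Wt.nextC, Bool.not_false, Bool.not_true, map_smul, smul_smul,
        ← add_smul, if_true]
      convert one_smul ℚ (v (n + 1, l)) using 2
      field_simp
      unfold Wt.dt
      ring

theorem rel1 (w : Wt) (hw : ND w) (i k : Bool) (x : RR) :
    ∑ j : Bool, E w i j (E w.next (!k) (!j) x) = if i = k then x else 0 := by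
  induction x using FreeAlgebra.induction generalizing i k with
  | grade0 r =>
    rw [Fintype.sum_bool]
    cases i <;> cases k <;> simp [E_algebraMap]
  | grade1 x => exact rel_gen1 w hw i k x
  | add x y hx hy =>
    simp only [map_add, Finset.sum_add_distrib, hx, hy]
    split_ifs <;> simp
  | mul x y hx hy =>
    have h1 := fun i k => hx i k
    have h2 := fun i k => hy i k
    simp only [Fintype.sum_bool, E_mul, map_add, Bool.not_true, Bool.not_false] at h1 h2 ⊢
    have y1 := h2 true true
    have y2 := h2 true false
    have y3 := h2 false true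
    have y4 := h2 false false
    have x1 := h1 i k
    simp only [Bool.not_true, Bool.not_false, reduceCtorEq, if_false, if_true] at y1 y2 y3 y4
    have : (if i = k then x * y else 0) = (if i = k then x else 0) * y := by
      split_ifs <;> simp
    rw [this, ← x1]
    have e : ∀ P Q P' Q' : RR,
        P * (E w true true (E w.next false false y) + E w true false (E w.next false true y))
        + Q * (E w true true (E w.next true false y) + E w true false (E w.next true true y))
        + (P' * (E w false true (E w.next false false y) + E w false false (E w.next false true y))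
        + Q' * (E w false true (E w.next true false y) + E w false false (E w.next true true y)))
        = P * y + Q' * y := by
      intro P Q P' Q'
      rw [y1, y2, y3, y4]; simp
    rw [add_mul, ← e (E w i true (E w.next (!k) false x)) (E w i true (E w.next (!k) true x))
      (E w i false (E w.next (!k) false x)) (E w i false (E w.next (!k) true x))]
    noncomm_ring

theorem rel2 (w : Wt) (hw : ND w) (i k : Bool) (x : RR) :
    ∑ j : Bool, E w.next (!j) (!i) (E w j k x) = if i = k then x else 0 := by
  induction x using FreeAlgebra.induction generalizing i k with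
  | grade0 r =>
    rw [Fintype.sum_bool]
    cases i <;> cases k <;> simp [E_algebraMap]
  | grade1 x => exact rel_gen2 w hw i k x
  | add x y hx hy =>
    simp only [map_add, Finset.sum_add_distrib, hx, hy]
    split_ifs <;> simp
  | mul x y hx hy =>
    have h1 := fun i k => hx i k
    have h2 := fun i k => hy i k
    simp only [Fintype.sum_bool, E_mul, map_add, Bool.not_true, Bool.not_false] at h1 h2 ⊢
    have y1 := h1 true true
    have y2 := h1 true false
    have y3 := h1 false true
    have y4 := h1 false false
    have x1 := h2 i k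
    simp only [Bool.not_true, Bool.not_false, reduceCtorEq, if_false, if_true] at y1 y2 y3 y4
    have : (if i = k then x * y else 0) = x * (if i = k then y else 0) := by
      split_ifs <;> simp
    rw [this, ← x1]
    have e : ∀ P Q P' Q' : RR,
        (E w.next false false (E w true true x) + E w.next true false (E w false true x)) * P
        + (E w.next false false (E w true false x) + E w.next true false (E w false false x)) * Q
        + ((E w.next false true (E w true true x) + E w.next true true (E w false true x)) * P'
        + (E w.next false true (E w true false x) + E w.next true true (E w false false x)) * Q')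
        = x * P + x * Q' := by
      intro P Q P' Q'
      rw [y1, y2, y3, y4]; simp
    rw [mul_add, ← e (E w.next false (!i) (E w true k y)) (E w.next false (!i) (E w false k y))
      (E w.next true (!i) (E w true k y)) (E w.next true (!i) (E w false k y))]
    noncomm_ring

/-- the involution of the index set. -/
def th : J → J
  | (0, l) => ((Nat.unpair l).1 + 1, (Nat.unpair l).2)
  | (j + 1, l) => (0, Nat.pair j l)

theorem th_th (x : J) : th (th x) = x := by
  rcases x with ⟨_ | j, l⟩
  · simp [th]
  · simp [th]

noncomputable def Th : RR →ₐ[ℚ] RR := FreeAlgebra.lift ℚ (fun x => v (th x))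

theorem Th_v (x : J) : Th (v x) = v (th x) := by simp [Th, v]

theorem Th_Th (x : RR) : Th (Th x) = x := by
  have : Th.comp Th = AlgHom.id ℚ RR := by
    apply FreeAlgebra.hom_ext
    funext x
    show Th (Th (v x)) = v x
    rw [Th_v, Th_v, th_th]
  exact congrArg (fun f : RR →ₐ[ℚ] RR => f x) this

/-- the operator of a generator. -/
noncomputable def op (t : Bool) (m : ℕ) (i j : Bool) : Module.End ℚ RR :=
  if t then Th.toLinearMap * E (W m) i j * Th.toLinearMap else E (W m) i j

theorem op_false (m : ℕ) (i j : Bool) (x : RR) : op false m i j x = E (W m) i j x := rfl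
theorem op_true (m : ℕ) (i j : Bool) (x : RR) :
    op true m i j x = Th (E (W m) i j (Th x)) := rfl

theorem op_mul (t : Bool) (m : ℕ) (i j : Bool) (x y : RR) :
    op t m i j (x * y) = ∑ a : Bool, op t m i a x * op t m a j y := by
  cases t
  · simp only [op_false, E_mul]
  · simp only [op_true, map_mul, E_mul, map_sum]

theorem op_one (t : Bool) (m : ℕ) (i j : Bool) :
    op t m i j 1 = if i = j then 1 else 0 := by
  have h := E_algebraMap (W m) i j 1
  rw [map_one] at h
  cases t
  · rw [op_false, h]
  · rw [op_true, map_one, h]
    split_ifs <;> simp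

noncomputable def act : HH →ₐ[ℚ] Module.End ℚ RR :=
  liftH (fun g => op g.1 g.2.1 g.2.2.1 g.2.2.2)
    (fun t m i k => by
      apply LinearMap.ext
      intro x
      cases t
      · have := rel1 (W m) (W_nd m) i k x
        simp only [Fintype.sum_bool, LinearMap.add_apply, Module.End.mul_apply, op_false] at this ⊢
        rw [show W (m + 1) = (W m).next from rfl, this]
        split_ifs <;> simp
      · have := rel1 (W m) (W_nd m) i k (Th x)
        simp only [Fintype.sum_bool, LinearMap.add_apply, Module.End.mul_apply, op_true,
          Th_Th] at this ⊢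
        rw [show W (m + 1) = (W m).next from rfl, ← map_add, this]
        split_ifs <;> simp [Th_Th])
    (fun t m i k => by
      apply LinearMap.ext
      intro x
      cases t
      · have := rel2 (W m) (W_nd m) i k x
        simp only [Fintype.sum_bool, LinearMap.add_apply, Module.End.mul_apply, op_false] at this ⊢
        rw [show W (m + 1) = (W m).next from rfl, this]
        split_ifs <;> simp
      · have := rel2 (W m) (W_nd m) i k (Th x)
        simp only [Fintype.sum_bool, LinearMap.add_apply, Module.End.mul_apply, op_true,
          Th_Th] at this ⊢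
        rw [show W (m + 1) = (W m).next from rfl, ← map_add, this]
        split_ifs <;> simp [Th_Th])

theorem act_z (t : Bool) (m : ℕ) (i j : Bool) : act (z (t, m, i, j)) = op t m i j :=
  liftH_z _ _ _ _

/-- the bilinear evaluation appearing in the module algebra law. -/
noncomputable def LL (x y : RR) : HH ⊗[ℚ] HH →ₗ[ℚ] RR :=
  TensorProduct.lift ((LinearMap.mul ℚ RR).compl₁₂
          (act.toLinearMap.flip x) (act.toLinearMap.flip y))

theorem LL_tmul (x y : RR) (a b : HH) : LL x y (a ⊗ₜ b) = act a x * act b y := by
  simp [LL]

theorem LL_mul_tmul (x y : RR) (u : HH ⊗[ℚ] HH) (a b : HH) :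
    LL x y (u * (a ⊗ₜ b)) = LL (act a x) (act b y) u := by
  induction u with
  | zero => simp
  | tmul c d => simp [Algebra.TensorProduct.tmul_mul_tmul, LL_tmul]
  | add p q hp hq => rw [add_mul, map_add, hp, hq, map_add]

theorem act_LL (h : HH) (hh : ∀ x y : RR, act h (x * y) = LL x y (comulH h)) (x y : RR)
    (u : HH ⊗[ℚ] HH) : act h (LL x y u) = LL x y (comulH h * u) := by
  induction u with
  | zero => simp
  | tmul c d => rw [LL_mul_tmul, LL_tmul, hh]
  | add p q hp hq => rw [mul_add, map_add, map_add, hp, hq, map_add]

theorem act_mul (h : HH) (x y : RR) : act h (x * y) = LL x y (comulH h) := by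
  induction h using HH_induction generalizing x y with
  | ha r =>
    rw [AlgHom.commutes, AlgHom.commutes, Algebra.TensorProduct.algebraMap_apply, LL_tmul]
    simp [Module.algebraMap_end_apply]
  | hz g =>
    obtain ⟨t, m, i, j⟩ := g
    rw [comulH_z, map_sum, act_z, op_mul]
    simp only [LL_tmul, act_z]
  | hm a b ha hb =>
    rw [map_mul act a b, Module.End.mul_apply, hb, act_LL a ha, map_mul comulH a b]
  | hp a b ha hb =>
    rw [map_add, LinearMap.add_apply, ha, hb, map_add, map_add]

theorem act_one (h : HH) : act h 1 = algebraMap ℚ RR (counitH h) := by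
  induction h using HH_induction with
  | ha r =>
    rw [AlgHom.commutes, AlgHom.commutes, Module.algebraMap_end_apply,
      Algebra.algebraMap_eq_smul_one]
    simp
  | hz g =>
    obtain ⟨t, m, i, j⟩ := g
    rw [act_z, op_one, counitH_z]
    split_ifs <;> simp
  | hm a b ha hb =>
    rw [map_mul, Module.End.mul_apply, hb, map_mul, map_mul, Algebra.algebraMap_eq_smul_one
      (counitH b), map_smul, ha]
    simp
  | hp a b ha hb =>
    rw [map_add, LinearMap.add_apply, ha, hb, map_add, map_add]

/-- at level `0` the lower left operator vanishes. -/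
theorem E_lower (x : RR) : E (W 0) true false x = 0 := by
  induction x using FreeAlgebra.induction with
  | grade0 r => rw [E_algebraMap]; simp
  | grade1 x => rw [show FreeAlgebra.ι ℚ x = v x from rfl, E_v]; simp [base, W]
  | add x y hx hy => rw [map_add, hx, hy, add_zero]
  | mul x y hx hy => rw [E_mul]; simp [hx, hy]

theorem E_ff_mul (x y : RR) :
    E (W 0) false false (x * y) = E (W 0) false false x * E (W 0) false false y := by
  rw [E_mul]; simp [E_lower]

theorem E_tt_mul (x y : RR) :
    E (W 0) true true (x * y) = E (W 0) true true x * E (W 0) true true y := by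
  rw [E_mul]; simp [E_lower]

/-- the special element of the Hopf algebra. -/
noncomputable def hh : HH := z (true, 0, true, true) * z (false, 0, false, false)

theorem act_hh (x : RR) : act hh x = Th (E (W 0) true true (Th (E (W 0) false false x))) := by
  simp only [hh, map_mul, Module.End.mul_apply, act_z]
  rfl

theorem act_hh_scalar (x : RR) : ∃ c : ℚ, act hh x = algebraMap ℚ RR c := by
  induction x using FreeAlgebra.induction with
  | grade0 r =>
    refine ⟨r, ?_⟩
    rw [act_hh]
    simp [E_algebraMap]
  | grade1 x =>
    refine ⟨0, ?_⟩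
    rw [act_hh, show FreeAlgebra.ι ℚ x = v x from rfl, E_v]
    simp [base, W, Th_v, E_v, th]
  | add x y hx hy =>
    obtain ⟨c, hc⟩ := hx
    obtain ⟨d, hd⟩ := hy
    exact ⟨c + d, by rw [map_add, hc, hd, map_add]⟩
  | mul x y hx hy =>
    obtain ⟨c, hc⟩ := hx
    obtain ⟨d, hd⟩ := hy
    refine ⟨c * d, ?_⟩
    rw [act_hh] at hc hd ⊢
    rw [E_ff_mul, map_mul, E_tt_mul, map_mul, hc, hd, map_mul]

theorem act_hh_one : act hh 1 = 1 := by
  rw [act_one]
  simp [hh, counitH_z]

/-- the free algebra satisfies no polynomial identity. -/
theorem RR_not_PI (m : ℕ) (p : FreeAlgebra ℚ (Fin m))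
    (hp : ∀ r : Fin m → RR, FreeAlgebra.lift ℚ r p = 0) : p = 0 := by
  have h1 := hp (fun i => v (i.val, 0))
  let g : RR →ₐ[ℚ] FreeAlgebra ℚ (Fin m) :=
    FreeAlgebra.lift ℚ (fun x : J => if h : x.1 < m then FreeAlgebra.ι ℚ ⟨x.1, h⟩ else 0)
  have h2 : g.comp (FreeAlgebra.lift ℚ (fun i : Fin m => v (i.val, 0))) = AlgHom.id ℚ _ := by
    apply FreeAlgebra.hom_ext
    funext i
    simp [g, v]
  have h3 := congrArg (fun f : FreeAlgebra ℚ (Fin m) →ₐ[ℚ] FreeAlgebra ℚ (Fin m) => f p) h2
  simp only [AlgHom.comp_apply, h1, map_zero, AlgHom.id_apply] at h3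
  exact h3.symm

end Pool.Agent.H656
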